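import Pool.Agent.helper64.NQ.Spec

/-!
# nq:PEX. Existence of projective characters
-/

set_option autoImplicit false

namespace Pool.Agent.NQ

open Pool.Agent.helper58.DC Pool.Agent.DI Pool.Agent.DR

/-- the induced function at `1` -/
theorem PEX_indf {Γ : Type} [Group Γ] [Finite Γ] (L K : Subgroup Γ) (ψ : Γ → ℂ) :
    indf L K ψ 1 = (Nat.card K : ℂ)⁻¹ * ((Nat.card L : ℂ) * ψ 1) := by
  classical
  unfold indf
  congr 1
  have h1 : ∀ t : Γ, ψ (t⁻¹ * 1 * t) = ψ 1 := by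
    intro t
    rw [mul_one, inv_mul_cancel]
  simp only [h1]
  rw [finsum_mem_eq_finite_toFinset_sum _ (Set.toFinite (L : Set Γ)), Finset.sum_const,
    nsmul_eq_mul, ← Set.ncard_eq_toFinset_card]
  rfl

theorem PEX (hCRE : CRE_stmt) (hCFA : CFA_stmt) (hCUQ : CUQ_stmt) (hTBW : TBW_stmt)
    (hCCJ : CCJ_stmt) (hB2 : B2_stmt) : PEX_stmt := by
  intro Γ Q _ _ _ _ q S hS ψ hψ hinv α hα hA N
  classical
  set K : Subgroup Γ := S ⊓ q.ker with hK
  set L : Subgroup Γ := S ⊓ N.comap q with hL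
  have hKL : K ≤ L := by
    intro x hx
    refine ⟨hx.1, ?_⟩
    have h1 : q x = 1 := hx.2
    show q x ∈ N
    rw [h1]
    exact N.one_mem
  have hLS : L ≤ S := inf_le_left
  have hSK : S ≤ nz K := by
    intro s hs
    rw [Subgroup.mem_normalizer_iff]
    intro h
    constructor
    · rintro ⟨h1, h2⟩
      refine ⟨S.mul_mem (S.mul_mem hs h1) (S.inv_mem hs), ?_⟩
      have h3 : q h = 1 := h2
      show q (s * h * s⁻¹) = 1
      rw [map_mul, map_mul, h3, mul_one, ← map_mul, mul_inv_cancel, map_one]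
    · rintro ⟨h1, h2⟩
      have h4 : h = s⁻¹ * (s * h * s⁻¹) * s := by group
      refine ⟨?_, ?_⟩
      · rw [h4]
        exact S.mul_mem (S.mul_mem (S.inv_mem hs) h1) hs
      · have h3 : q (s * h * s⁻¹) = 1 := h2
        show q h = 1
        rw [h4, map_mul, map_mul, h3, mul_one, ← map_mul, inv_mul_cancel, map_one]
  have hLn : L ≤ nz K := hLS.trans hSK
  obtain ⟨m, hr, hi, hn⟩ := hCRE Γ L K hKL
  have hψ1 : ψ 1 ≠ 0 := by
    obtain ⟨n, hn0, hn1, _⟩ := ((hB2 Γ K).2 ψ hψ).1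
    rw [hn1]
    exact_mod_cast hn0.ne'
  obtain ⟨φ, hφ, hm⟩ : ∃ φ ∈ IrrOn L, m φ ψ ≠ 0 := by
    by_contra hcon
    push Not at hcon
    have h1 := hi ψ hψ 1
    rw [PEX_indf] at h1
    have h2 : ∑ᶠ φ ∈ IrrOn L, (m φ ψ : ℂ) * φ 1 = 0 := by
      apply finsum_mem_eq_zero_of_forall_eq_zero
      intro φ hφ
      rw [hcon φ hφ, Nat.cast_zero, zero_mul]
    rw [h2] at h1
    have hK0 : (Nat.card K : ℂ) ≠ 0 := by exact_mod_cast (Nat.card_pos (α := K)).ne'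
    have hL0 : (Nat.card L : ℂ) ≠ 0 := by exact_mod_cast (Nat.card_pos (α := L)).ne'
    exact (mul_ne_zero (inv_ne_zero hK0) (mul_ne_zero hL0 hψ1)) h1
  obtain ⟨ψ', hψ', e, he, hov⟩ := (hCFA Γ K L hKL hLn).1 φ hφ
  have h3 := ((hCCJ Γ K L hLn ψ' hψ').2.1 φ e).1 hov
  have h5 := hCUQ Γ K _ _ (fun x hx => (hr φ hφ x hx).symm.trans (h3 x hx)) ψ hψ
  obtain ⟨n, hnL, hnψ⟩ : ∃ n ∈ L, ψ = funMap (MulAut.conj n) ψ' := by
    by_contra hcon
    rw [if_neg hcon] at h5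
    exact hm (by exact_mod_cast h5)
  have h6 : ψ' = ψ := by
    have h7 := hinv n⁻¹ (S.inv_mem (hLS hnL))
    rw [← h7, hnψ]
    funext g
    simp [funMap, mul_assoc]
  rw [h6] at hov
  have h8 : ∀ x ∈ K, φ x = e * ψ x := by
    intro x hx
    have h9 := hov x hx
    have h10 : {ψ'' : Γ → ℂ | ∃ n ∈ L, ψ'' = funMap (MulAut.conj n) ψ} = {ψ} := by
      ext θ
      constructor
      · rintro ⟨a, ha, rfl⟩
        exact hinv a (hLS ha)
      · intro hθ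
        have hθ' : θ = ψ := hθ
        exact ⟨1, L.one_mem, by rw [hθ', hinv 1 S.one_mem]⟩
    rw [h10, finsum_mem_singleton] at h9
    exact h9
  obtain ⟨V, i1, i2, i3, T, hT⟩ := hA
  obtain ⟨σ, hσ, _⟩ := hTBW Γ Q q S hS ψ hψ α hα V T hT N φ hφ e h8
  exact ⟨σ, e, hσ⟩

end Pool.Agent.NQ
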